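import Pool.Agent.ThA.ChiK

/-!
# MP_79b4ff_gt: knotoids, 6-moves and twist regions

For the polynomial `f = ∑ p_k A ^ k` of a knotoid let `M_j` be the sum of `k p_k` over the exponents
`k` which are `j` modulo `6` (all exponents are even).  `LamK f = M_2 + M_4 - 2 M_0` and
`ChiK f = M_2 - M_4`.
-/

set_option autoImplicit false

namespace Pool.Agent.Results.MP_79b4ff_gt.KnotoidTwists

open Pool.Agent.Helper16.Knotoid Pool.Agent.ThA

/-- Let the knotoid diagram `D'` be obtained from the knotoid diagram `D` by a sequence of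
replacements of diagrams by diagrams with the same `f` (for instance of isotopic knotoids) and of
insertions and deletions of twist regions with sums of signs divisible by `6`; let `k` be the sum of
the signs of the inserted parallel crossings minus that of the deleted ones.

Then `ChiK f` is the same for `D'` and `D`, and `LamK f` changes by `12 k`, where `6 ∣ k`.  For every
division of the crossings of `D'` into twist classes (for instance with `D = D'` and `k = 0`),
`LamK f / 12` differs from the signed number `mu` of the parallel crossings of `D'` at most by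
`bndS t₁ t₂ t₃ / √3`, where `t₁`, `t₂`, `t₃` are the numbers of the classes whose sum of signs is
`± 1`, `± 2`, `3` modulo `6`.  So `f = 1` for `D'` is possible only if `ChiK f = 0` and
`LamK f = - 12 k` for `D`, and `√3 |mu| ≤ bndS t₁ t₂ t₃` for `D'`. -/
theorem result (D D' : KDiagram) (k : ℤ) (h : KMoves D D' k) (m : ℕ)
    (C : TwistClasses D'.D.pos m) :
    (6 : ℤ) ∣ k ∧ ChiK D'.f = ChiK D.f ∧ LamK D'.f = LamK D.f + 12 * k ∧
    Real.sqrt 3 * |(LamK D'.f : ℝ) / 12 - C.mu D'.D.sign| ≤
      bndS (C.t₁ D'.D.sign) (C.t₂ D'.D.sign) (C.t₃ D'.D.sign) ∧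
    (D'.f = 1 → ChiK D.f = 0 ∧ LamK D.f = -(12 * k) ∧
      Real.sqrt 3 * |(C.mu D'.D.sign : ℝ)| ≤
        bndS (C.t₁ D'.D.sign) (C.t₂ D'.D.sign) (C.t₃ D'.D.sign)) := by
  have h2 := knotoid_chi h
  have h3 := knotoid_law h
  have h4 := knotoid_bound D'.D C
  refine ⟨six_dvd h, h2, h3, h4, fun h1 => ?_⟩
  have h5 : LamK D'.D.normalizedBracket = 0 := by
    have h6 : D'.D.normalizedBracket = 1 := h1
    rw [h6, LamK_one]
  rw [h1, ChiK_one] at h2
  rw [h1, LamK_one] at h3
  rw [h5, Int.cast_zero, zero_div, zero_sub, abs_neg] at h4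
  exact ⟨h2.symm, by linarith, h4⟩

end Pool.Agent.Results.MP_79b4ff_gt.KnotoidTwists
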