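import Pool.Agent.RU.Count
import Pool.Agent.RU.Gap
import Pool.Agent.RU.Equi
import Pool.Agent.RU.Line
import Pool.Agent.RU.Rho
import Pool.Agent.RU.Burn
import Pool.Agent.RU.Ping
import Pool.Agent.RU.PgTL
import Pool.Agent.RU.Par
import Pool.Agent.RU.Fun
import Pool.Agent.RU.PgTurn

/-!
The normalised bracket of random braid boxes in an arbitrary diagram: exponentially small
concentration and exponentially large determinants, so the bracket detects the unknot on all but
exponentially few of the diagrams.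
-/

namespace Pool.Agent.Results.MP_42db45_gt.RandomBraids

open Pool.RU LaurentPolynomial

theorem result (k : ℕ) : ∃ C c : ℝ, 0 < c ∧ ∀ (n : ℕ) (D : Diagram k n) (P : ℤ[T;T⁻¹]),
    (∀ (m : ℕ) (w₀ : List (Fin k × ℤˣ)) (a b : Fin m → Fin k) (w : Fin m → List (Fin k × ℤˣ)),
      (∀ j, (a j).val + 1 = (b j).val ∨ (b j).val + 1 = (a j).val) →
      (Nat.card {ε : Fin m → ℤˣ × ℤˣ // (D.insert (boxWord w₀ a b w ε)).IsKnot ∧
        ∃ o, (D.insert (boxWord w₀ a b w ε)).IsOrientation o ∧
          ((D.insert (boxWord w₀ a b w ε)).normalized o = P ∨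
            (D.insert (boxWord w₀ a b w ε)).determinant o ≤ Real.exp (c * m))} : ℝ) ≤
              C * Real.exp (-c * m) * 4 ^ m) ∧
    (2 ≤ k → ∀ t : ℕ, (Nat.card {w : Fin t → Fin k × ℤˣ //
      (D.insert (List.ofFn w)).IsKnot ∧ ∃ o, (D.insert (List.ofFn w)).IsOrientation o ∧
        ((D.insert (List.ofFn w)).normalized o = P ∨
          (D.insert (List.ofFn w)).determinant o ≤ Real.exp (c * t))} : ℝ) ≤
            C * Real.exp (-c * t) * (2 * k) ^ t) :=
  main (thm_Gap thm_Rho (thm_Equi thm_Rho (thm_Line thm_Rho thm_Burn)) thm_Ping) thm_PgTurn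
    thm_PgTL (thm_Par (thm_Fun thm_PgTurn)) k

end Pool.Agent.Results.MP_42db45_gt.RandomBraids
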