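import Pool.Agent.ThA.Fin

set_option autoImplicit false

namespace Pool.Agent.Results.MP_42db45_gt.SixMoves

open Pool.Agent.ThA Pool.Agent.Helper16.Jones

/-- For the polynomial `f` of a knot diagram, `f = V(t) = ∑ v_m t ^ m` with `t = A ^ (-4)`, let
`Lam f = ∑ m v_m` over the `m` divisible by `3`, and let `Chi f` be the same sum over the `m` which are
`1` modulo `3` minus that over the `m` which are `2` modulo `3`.  Let `D'` be obtained from `D` by a
sequence of replacements of diagrams by diagrams with the same `f` (for instance of isotopic knots) and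
of insertions and deletions of twist regions whose sum of signs is divisible by `6`, `k` the sum of the
signs of the parallel crossings inserted minus that of those deleted.  Then `6 ∣ k`,
`Lam f_D' = Lam f_D + k` and `Chi f_D' = Chi f_D`.  For every division `C` of the crossings of `D'` into
twist classes (for instance with `D = D'` and `k = 0`), `mu` the sum of the signs of the crossings in the
parallel classes, `Lam f_D'` differs from `mu` at most by `bndS t₁ t₂ t₃ / √3`, where `t₁`, `t₂`, `t₃`
are the numbers of the classes whose sum of signs is `± 1`, `± 2`, `3` modulo `6`.  So `f_D' = 1` is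
possible only if `Chi f_D = 0` and `Lam f_D = -k`, and `√3 |mu| ≤ bndS t₁ t₂ t₃`.  The hypothesis
`EvenCode` (every crossing is interlaced with an even number of crossings) holds for all planar
diagrams. -/
theorem result :
    (∀ (D D' : Diagram) (k : ℤ) (m : ℕ) (C : TwistClasses D'.code m), EvenCode D'.code →
      Moves D D' k →
        (6 : ℤ) ∣ k ∧ Lam D'.f = Lam D.f + k ∧ Chi D'.f = Chi D.f ∧
        Real.sqrt 3 * |(Lam D'.f : ℝ) - C.mu D'.sign| ≤
          bndS (C.t₁ D'.sign) (C.t₂ D'.sign) (C.t₃ D'.sign) ∧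
        (D'.f = 1 → Chi D.f = 0 ∧ Lam D.f = -k ∧
          Real.sqrt 3 * |(C.mu D'.sign : ℝ)| ≤
            bndS (C.t₁ D'.sign) (C.t₂ D'.sign) (C.t₃ D'.sign))) ∧
    (∀ (n : ℕ) (D : KnotDiagram n), D.Planar → EvenCode D.pos) := by
  refine ⟨fun D D' k m C hD h => ?_, fun n D hD => even_of_planar D hD⟩
  have h1 := Lam_moves h
  have hc : Chi D'.f = Chi D.f := h.re_const Chi fun _ _ e σ hg => Chi_state hg e σ
  have h2 : Real.sqrt 3 * |(Lam D'.f : ℝ) - C.mu D'.sign| ≤
      bndS (C.t₁ D'.sign) (C.t₂ D'.sign) (C.t₃ D'.sign) := Lam_bound_S hD C D'.sign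
  refine ⟨h.six_dvd, h1, hc, h2, fun h3 => ?_⟩
  rw [h3, Lam_one] at h1
  rw [h3, Chi_one] at hc
  rw [h3, Lam_one, Int.cast_zero, zero_sub, abs_neg] at h2
  exact ⟨hc.symm, by omega, h2⟩

end Pool.Agent.Results.MP_42db45_gt.SixMoves
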